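import Pool.Agent.Helper75.OE.GoalsB

/-!
Project OE (MP_fc0446_an), packet PINV: the pair of labels is invariant in time.
-/

open Pool.Agent.Helper73.OE Pool.Agent.Helper73.OE.Sys Pool.Agent.Helper75.OE

namespace Pool.Agent.Helper39.OE

/-- One update. -/
theorem pinv_step (h1 : A_BLOC) (h2 : A_PICK) (h3 : B_AT) (h4 : B_FAT)
    {H S L : Type} [Group H] [Fintype L] (X : Sys H S L) (P : Par) (u : ℕ)
    (O : Edges H S) (f : Cfg H S L) (e : H × S) (z : H) (a b : S) (hMA : X.MA O Set.univ f)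
    (hT : Thr X P O f e z a b) :
    (X.Upd P O e.1 e.2 u f z a = f z a ∧ X.Upd P O e.1 e.2 u f z b = f z b) ∨
      (X.Upd P O e.1 e.2 u f z a = f z b ∧ X.Upd P O e.1 e.2 u f z b = f z a) := by
  classical
  unfold Upd
  split_ifs with hm hc
  · exact Or.inl ⟨rfl, rfl⟩
  · left
    have hch := hc.choose_spec
    set i := hc.choose with hi
    have hmem := ((h2 _ P.cap
      (X.AS P O f e.1 e.2 (X.tau (f (X.nb e.1 e.2) (X.bar e.2))))).1 u i hch.1).1
    have hAv : X.Av O P.M f (2 * (i.1 : ℕ) + 1) e.1 e.2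
        (X.tau (f (X.nb e.1 e.2) (X.bar e.2))) i.2 := by
      have := hmem
      unfold AS at this
      exact (Finset.mem_filter.1 this).2
    have hz := ((h1 H S L X O O P.M (2 * (i.1 : ℕ) + 1) e.1 e.2
      (X.tau (f (X.nb e.1 e.2) (X.bar e.2))) i.2 f f (fun _ _ => rfl)
      (fun _ _ _ => Iff.rfl)).2 hAv).2 z (by
        have h5 := hT.1
        have h6 := i.1.2
        unfold rad at h5
        omega)
    have hz' : X.TRi P O i e.1 e.2 (X.tau (f (X.nb e.1 e.2) (X.bar e.2))) f z = f z := hz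
    rw [hz']
    exact ⟨rfl, rfl⟩
  · have hne : X.tau (f e.1 e.2) ≠ f (X.nb e.1 e.2) (X.bar e.2) := by
      intro h
      apply hm
      rw [← h, X.tau_tau]
    have hF := h4 H S L X O f (X.nb e.1 e.2) (X.bar e.2) (X.tau (f e.1 e.2))
    have hA := (h3 H S L X O f (X.nb e.1 e.2) (X.bar e.2) (X.tau (f e.1 e.2))).1 z
    by_cases hr : X.OnRun O f (X.nb e.1 e.2) (X.bar e.2) (X.tau (f e.1 e.2)) z
    · obtain ⟨p', y', hat⟩ := hA.1 hr
      rw [hF.1 hMA hne z p' y' hat]
      right
      have hy : f z ((f z).symm y') = y' := (f z).apply_symm_apply y'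
      rcases (hT.2.2 p' y' hat).2 with ⟨hp, hs⟩ | ⟨hp, hs⟩
      · rw [hs] at hy
        subst hp
        simp only [Equiv.trans_apply, ← hy]
        exact ⟨Equiv.swap_apply_left _ _, Equiv.swap_apply_right _ _⟩
      · rw [hs] at hy
        subst hp
        simp only [Equiv.trans_apply, ← hy]
        exact ⟨Equiv.swap_apply_right _ _, Equiv.swap_apply_left _ _⟩
    · left
      rw [hF.2 z hr]
      exact ⟨rfl, rfl⟩

theorem sym_addE {H S L : Type} [Group H] (X : Sys H S L) {O : Edges H S} (h : X.Sym O)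
    (e : H × S) : X.Sym (X.addE O e) := by
  intro v s
  unfold addE
  have h1 : ((v, s) = e) ↔ ((X.nb v s, X.bar s) = X.rev e) := by
    constructor
    · rintro rfl
      rfl
    · intro h2
      have h3 : X.rev (X.nb v s, X.bar s) = X.rev (X.rev e) := by rw [h2]
      rw [X.rev_rev] at h3
      rw [← h3]
      exact (X.rev_rev (v, s)).symm
  have h2 : ((v, s) = X.rev e) ↔ ((X.nb v s, X.bar s) = e) := by
    constructor
    · intro h3
      have h4 : X.rev (v, s) = X.rev (X.rev e) := by rw [h3]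
      rw [X.rev_rev] at h4
      exact h4
    · rintro rfl
      exact (X.rev_rev (v, s)).symm
  rw [h v s, h1, h2]
  tauto

theorem pinv (h1 : A_BLOC) (h2 : A_PICK) (h3 : B_AT) (h4 : B_FAT) (h5 : B_RINV) : B_PINV := by
  intro H S L _ _ X P u l
  induction l with
  | nil =>
    intro O f z a b _ _ _ _ e' O' f' hR
    exact absurd hR (by simp [Rec])
  | cons e t ih =>
    intro O f z a b hS hMA hFr hThr e' O' f' hR
    have hR' : (e' = e ∧ O' = O ∧ f' = f) ∨
      Rec X P u t (X.addE O e) (X.Upd P O e.1 e.2 (u e) f) e' O' f' := hR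
    rcases hR' with ⟨_, _, rfl⟩ | hR'
    · exact Or.inl ⟨rfl, rfl⟩
    · cases t with
      | nil => exact absurd hR' (by simp [Rec])
      | cons e2 t2 =>
        have hrec2 : Rec X P u (e :: e2 :: t2) O f e2 (X.addE O e)
            (X.Upd P O e.1 e.2 (u e) f) := Or.inr (Or.inl ⟨rfl, rfl, rfl⟩)
        have hinv := (h5 H S L X P u (e :: e2 :: t2) O f hS hMA hFr).1 _ _ _ hrec2
        have hFr' : Fr X (X.addE O e) (e2 :: t2) := by
          refine ⟨?_, (List.pairwise_cons.1 hFr.2).2⟩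
          intro e1 he1 hO
          have ha := hFr.1 e1 (List.mem_cons_of_mem _ he1)
          have hb := (List.pairwise_cons.1 hFr.2).1 e1 he1
          rcases hO with hO | hO | hO
          · exact ha hO
          · exact hb.1 hO.symm
          · exact hb.2 hO
        have hstep := pinv_step h1 h2 h3 h4 X P (u e) O f e z a b hMA
          (hThr e O f (Or.inl ⟨rfl, rfl, rfl⟩))
        have hih := ih (X.addE O e) (X.Upd P O e.1 e.2 (u e) f) z a b hinv.2.1 hinv.2.2.1 hFr'
          (fun e1 O1 f1 hr => hThr e1 O1 f1 (Or.inr hr)) e' O' f' hR'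
        rcases hstep with ⟨ha, hb⟩ | ⟨ha, hb⟩ <;> rcases hih with ⟨hc, hd⟩ | ⟨hc, hd⟩
        · exact Or.inl ⟨hc.trans ha, hd.trans hb⟩
        · exact Or.inr ⟨hc.trans hb, hd.trans ha⟩
        · exact Or.inr ⟨hc.trans ha, hd.trans hb⟩
        · exact Or.inl ⟨hc.trans hb, hd.trans ha⟩

end Pool.Agent.Helper39.OE
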