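import Pool.Agent.Helper79.OE.GoalsD

/-!
Project OE (MP_fc0446_an), packet CHG: the probability of a change of the root by one batch.
-/

open MeasureTheory Filter Pool.Agent.Helper73.OE Pool.Agent.Helper79.OE
open scoped ENNReal Topology

namespace Pool.Agent.Helper39.OE

theorem chg : D_CHG := by
  intro H S L _ _ _ _ X P ε ε' μ _ Y hY t b ht hb hbt h1 h2 hcost
  classical
  have : IsProbabilityMeasure (Sys.lamS H S) := by
    unfold Sys.lamS; infer_instance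
  have hsub : ({w | X.batch P ε ε' w.1.1 w.1.2 w.2 1 ≠ w.1.1 1} :
      Set ((Cfg H S L × Env H S) × Seeds H S)) ≤ᵐ[μ.prod (Sys.lamS H S)]
      ({w | b ^ 2 ≤ Y w.1} ∪ ⋃ s : S, ⋃ v : H, {w | X.ChSt P ε ε' w.1.1 w.1.2 w.2 v s 1} :
        Set ((Cfg H S L × Env H S) × Seeds H S)) := by
    filter_upwards [h1, h2] with w hw1 hw2 hE
    obtain ⟨N, hN, hΛ⟩ := hw1
    have hE' : X.batch P ε ε' w.1.1 w.1.2 w.2 1 ≠ w.1.1 1 := hE
    have hc : (((X.finite_ball 1 N).toFinset : Finset H) : Set H) = X.ball 1 N := by simp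
    have hd := hΛ (X.finite_ball 1 N).toFinset (by rw [hc])
    rw [hd] at hE'
    obtain ⟨m, k, hk, hk1, hY⟩ := hw2 _ hE'
    rcases Nat.lt_or_ge k 2 with hk2 | hk2
    · right
      have hk' : k = 1 := by omega
      obtain ⟨v, s, hvs⟩ := hk1 hk' (by rw [hc]; exact X.ball_mono 1 (hN m k hY))
      exact Set.mem_iUnion.2 ⟨s, Set.mem_iUnion.2 ⟨v, hvs⟩⟩
    · left
      show b ^ 2 ≤ Y w.1
      calc b ^ 2 ≤ b ^ k := pow_le_pow_right₀ hb hk2
        _ = 1 * b ^ k := (one_mul _).symm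
        _ ≤ t ^ m * b ^ k := mul_le_mul_left (one_le_pow₀ ht) _
        _ ≤ Y w.1 := hY
  have hb0 : b ≠ 0 := by
    rintro rfl
    simp at hb
  have hA : (μ.prod (Sys.lamS H S)) {w | b ^ 2 ≤ Y w.1} ≤ (∫⁻ w, Y w ∂μ) / b ^ 2 := by
    have hm : Measurable fun w : (Cfg H S L × Env H S) × Seeds H S => Y w.1 :=
      hY.comp measurable_fst
    refine (meas_ge_le_lintegral_div hm.aemeasurable (pow_ne_zero 2 hb0)
      (ENNReal.pow_ne_top hbt)).trans ?_
    rw [lintegral_prod _ hm.aemeasurable]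
    simp
  calc (μ.prod (Sys.lamS H S)) {w | X.batch P ε ε' w.1.1 w.1.2 w.2 1 ≠ w.1.1 1}
      ≤ (μ.prod (Sys.lamS H S)) ({w | b ^ 2 ≤ Y w.1} ∪
          ⋃ s : S, ⋃ v : H, {w | X.ChSt P ε ε' w.1.1 w.1.2 w.2 v s 1}) := measure_mono_ae hsub
    _ ≤ (μ.prod (Sys.lamS H S)) {w | b ^ 2 ≤ Y w.1} +
          (μ.prod (Sys.lamS H S))
            (⋃ s : S, ⋃ v : H, {w | X.ChSt P ε ε' w.1.1 w.1.2 w.2 v s 1}) :=
        measure_union_le _ _
    _ ≤ (∫⁻ w, Y w ∂μ) / b ^ 2 + ∑ s : S, X.cost P ε ε' μ s := by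
        refine add_le_add hA ?_
        refine (measure_iUnion_le _).trans ?_
        rw [tsum_fintype]
        refine Finset.sum_le_sum fun s _ => ?_
        exact (measure_iUnion_le _).trans (hcost s)

end Pool.Agent.Helper39.OE
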