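import Pool.Agent.Helper79.OE.GoalsD
import Pool.Agent.Helper73.OE.Consist

/-!
Project OE (MP_fc0446_an), packet LIMA: the law of the infinite volume limit of one batch, for
bounded functions.
-/

open MeasureTheory Filter Pool.Agent.Helper73.OE Pool.Agent.Helper79.OE
open scoped ENNReal Topology

namespace Pool.Agent.Helper39.OE

theorem lamS_prob (H S : Type) : IsProbabilityMeasure (Sys.lamS H S) := by
  unfold Sys.lamS; infer_instance

theorem lima : D_LIMA := by
  intro hFV H S L _ _ _ _ X P ε ε' μ _ hdyn hbatch hcap hε' hlt hstar hgood o Λ hΛ F hF hdep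
    C hC hFC
  classical
  have : IsProbabilityMeasure (Sys.lamS H S) := lamS_prob H S
  let B : ℕ → Finset H := fun n => (X.finite_ball o n).toFinset
  have hBc : ∀ n, ((B n : Finset H) : Set H) = X.ball o n := fun n => by simp [B]
  -- every finite set is contained in `B n` for large `n`
  have hexh : ∀ A : Finset H, ∀ᶠ n in atTop, A ⊆ B n := by
    intro A
    rw [eventually_atTop]
    refine ⟨A.sup (fun z => X.dist o z), fun n hn z hz => ?_⟩
    rw [← Finset.mem_coe, hBc]
    exact (Finset.le_sup (f := fun z => X.dist o z) hz).trans hn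
  have hPC : ∀ n, X.PC o ((B n : Finset H) : Set H) := fun n => by
    rw [hBc]; exact X.PC_ball o n
  have hval : ∀ᶠ n in atTop,
      ∫⁻ w, F (X.dyn P ε ε' ((B n : Finset H) : Set H) w.1.1 w.1.2 w.2, w.1.2)
        ∂(μ.prod (Sys.lamS H S)) =
      ∫⁻ η, X.starAvg Λ (X.Op ε' η) (fun q => F (q, η)) ∂(Sys.lamE H S) := by
    filter_upwards [hexh Λ] with n hn
    rw [hFV X P hcap ε ε' hε' hlt μ hstar o (B n) (hPC n) F hF
      (fun q q' η h => hdep q q' η fun z hz => h z (hn hz))]
    refine lintegral_congr fun η => ?_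
    exact X.starAvg_mono (X.Op ε' η) hΛ (hPC n) hn (fun q => F (q, η))
      (fun q q' h => hdep q q' η h)
  have hlim : Tendsto
      (fun n => ∫⁻ w, F (X.dyn P ε ε' ((B n : Finset H) : Set H) w.1.1 w.1.2 w.2, w.1.2)
        ∂(μ.prod (Sys.lamS H S))) atTop
      (𝓝 (∫⁻ w, F (X.batch P ε ε' w.1.1 w.1.2 w.2, w.1.2) ∂(μ.prod (Sys.lamS H S)))) := by
    refine tendsto_lintegral_of_dominated_convergence (fun _ => C) ?_ ?_ ?_ ?_
    · intro n
      exact hF.comp ((hdyn (B n)).prodMk (measurable_snd.comp measurable_fst))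
    · intro n
      exact Eventually.of_forall fun w => hFC _
    · rw [lintegral_const, measure_univ, mul_one]
      exact hC
    · filter_upwards [hgood] with w hw
      choose N hN using hw
      have hev : ∀ᶠ n in atTop, ∀ z ∈ Λ,
          X.dyn P ε ε' ((B n : Finset H) : Set H) w.1.1 w.1.2 w.2 z =
            X.batch P ε ε' w.1.1 w.1.2 w.2 z := by
        rw [Filter.eventually_all_finset]
        intro z _
        filter_upwards [hexh (X.finite_ball z (N z)).toFinset] with n hn
        refine (hN z (B n) ?_).symm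
        intro y hy
        rw [Finset.mem_coe]
        exact hn (by simpa using hy)
      refine tendsto_const_nhds.congr' ?_
      filter_upwards [hev] with n hn
      exact hdep _ _ _ fun z hz => (hn z hz).symm
  have hmain : ∫⁻ w, F (X.batch P ε ε' w.1.1 w.1.2 w.2, w.1.2) ∂(μ.prod (Sys.lamS H S)) =
      ∫⁻ η, X.starAvg Λ (X.Op ε' η) (fun q => F (q, η)) ∂(Sys.lamE H S) :=
    tendsto_nhds_unique hlim
      (tendsto_const_nhds.congr' (hval.mono fun n hn => hn.symm))
  rw [← hmain]
  unfold Sys.next
  have hm : Measurable fun w : (Cfg H S L × Env H S) × Seeds H S =>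
      (X.batch P ε ε' w.1.1 w.1.2 w.2, w.1.2) :=
    hbatch.prodMk (measurable_snd.comp measurable_fst)
  rw [lintegral_map hF hm]

end Pool.Agent.Helper39.OE
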