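import Pool.Agent.Helper75.OE.GoalsB2

/-!
Project OE (MP_fc0446_an), packet WREC: a parent-closed set decomposed at a vertex.
-/

open Pool.Agent.Helper73.OE Pool.Agent.Helper73.OE.Sys Pool.Agent.Helper75.OE
open scoped ENNReal

namespace Pool.Agent.Helper39.OE

/-- If the child `nb z c` is not in the parent-closed set then no vertex of the branch is. -/
theorem branch_empty {H S L : Type} [Group H] (X : Sys H S L) {o : H} {C : Finset H}
    (hC : X.PC o (C : Set H)) {z : H} {c : S} (hc : X.dist o (X.nb z c) = X.dist o z + 1)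
    (hn : X.nb z c ∉ C) : ∀ (n : ℕ) (x : H), X.dist o x = n → x ∈ C →
      x ∉ X.Sd (X.nb z c) (X.bar c) := by
  intro n
  induction n with
  | zero =>
    intro x hx _ hb
    have hxo : o = x := (X.dist_eq_zero o x).1 hx
    subst hxo
    rw [X.mem_Sd_bar] at hb
    omega
  | succ n ih =>
    intro x hx hxC hb
    have hxo : x ≠ o := by
      rintro rfl
      rw [X.dist_self] at hx
      omega
    obtain ⟨s, hs⟩ := X.exists_parent hxo
    have hsC : X.nb x s ∈ C := Finset.mem_coe.1 (hC.2 x (Finset.mem_coe.2 hxC) s hs)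
    by_cases h : X.nb x s ∈ X.Sd (X.nb z c) (X.bar c)
    · exact ih (X.nb x s) (by omega) hsC h
    · obtain ⟨h1, _⟩ := X.Sd_edge hb h
      exact hn (h1 ▸ hxC)

open Classical in
theorem prod_branches {H S L : Type} [Group H] (X : Sys H S L) {o : H} {C : Finset H}
    (w : H → ℝ≥0∞) (hC : X.PC o (C : Set H)) {z : H} (hz : z ∈ C) (T : Finset S)
    (hT : ∀ c ∈ T, X.dist o (X.nb z c) = X.dist o z + 1) (A : Finset H)
    (hA : ∀ x, x ∈ A ↔ x ∈ C ∧ (x = z ∨ ∃ c ∈ T, x ∈ X.Sd (X.nb z c) (X.bar c))) :
    ∏ x ∈ A, w x = w z * ∏ c ∈ T, (if X.nb z c ∈ C then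
      ∏ x ∈ C.filter (fun x => x ∈ X.Sd (X.nb z c) (X.bar c)), w x else 1) := by
  have hAe : A = insert z (T.biUnion fun c =>
      C.filter (fun x => x ∈ X.Sd (X.nb z c) (X.bar c))) := by
    ext x
    rw [hA, Finset.mem_insert, Finset.mem_biUnion]
    constructor
    · rintro ⟨h1, h2 | ⟨c, hc, h2⟩⟩
      · exact Or.inl h2
      · exact Or.inr ⟨c, hc, Finset.mem_filter.2 ⟨h1, h2⟩⟩
    · rintro (h | ⟨c, hc, h⟩)
      · subst h
        exact ⟨hz, Or.inl rfl⟩
      · rw [Finset.mem_filter] at h
        exact ⟨h.1, Or.inr ⟨c, hc, h.2⟩⟩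
  rw [hAe, Finset.prod_insert, Finset.prod_biUnion]
  · congr 1
    refine Finset.prod_congr rfl fun c hc => ?_
    split_ifs with h
    · rfl
    · refine Finset.prod_eq_one fun x hx => ?_
      rw [Finset.mem_filter] at hx
      exact absurd hx.2 (branch_empty X hC (hT c hc) h _ x rfl hx.1)
  · intro c _ c' _ hcc
    rw [Function.onFun, Finset.disjoint_left]
    intro x hx hx'
    rw [Finset.mem_filter] at hx hx'
    exact hcc (X.branch_unique hx.2 hx'.2)
  · rw [Finset.mem_biUnion]
    rintro ⟨c, _, h⟩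
    rw [Finset.mem_filter] at h
    exact X.notMem_Sd_bar z c h.2

theorem wrec : B_WREC := by
  classical
  intro H S L _ _ X o C w hC
  refine ⟨?_, ?_⟩
  · intro z r hz hr
    refine prod_branches X w hC hz (Finset.univ.erase r) ?_ _ ?_
    · intro c hc
      rcases X.dist_nb o z c with h | h
      · exact h
      · exact absurd (X.parent_unique h hr) (Finset.ne_of_mem_erase hc)
    · intro x
      rw [Finset.mem_filter]
      refine and_congr_right fun _ => ?_
      constructor
      · intro hx
        by_cases hxz : x = z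
        · exact Or.inl hxz
        · obtain ⟨s, hs⟩ := X.exists_branch hxz
          refine Or.inr ⟨s, ?_, hs⟩
          rw [Finset.mem_erase]
          refine ⟨?_, Finset.mem_univ _⟩
          rintro rfl
          exact X.notMem_Sd.2 hs hx
      · rintro (rfl | ⟨c, hc, hx⟩)
        · exact X.self_mem_Sd _ _
        · exact X.branch_subset (Finset.ne_of_mem_erase hc) hx
  · refine prod_branches X w hC (Finset.mem_coe.1 hC.1) Finset.univ ?_ C ?_
    · intro c _
      rw [X.dist_nb_self, X.dist_self]
    · intro x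
      constructor
      · intro hx
        refine ⟨hx, ?_⟩
        by_cases hxo : x = o
        · exact Or.inl hxo
        · obtain ⟨s, hs⟩ := X.exists_branch hxo
          exact Or.inr ⟨s, Finset.mem_univ _, hs⟩
      · exact fun h => h.1

end Pool.Agent.Helper39.OE
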